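import Mathlib
import Pool.Agent.H87.GroenDef
import Pool.Agent.H87.Groen2

namespace Pool.Agent.Results.MP_ae31bd_an.Neg

open Pool.Agent.H87.GroenDef

theorem result :
    ∃ (A : Type) (_ : NonUnitalNormedRing A) (_ : NormedSpace ℂ A) (_ : IsScalarTower ℂ A A)
      (_ : SMulCommClass ℂ A A) (_ : CompleteSpace A),
      DiagIdem (WithLp 1 (Unitization ℂ A)) ∧ ¬ WeaklyAmenable A :=
  ⟨H87.Groen.A, inferInstance, inferInstance, inferInstance, inferInstance, inferInstance,
    H87.Groen2.diagIdem H87.Groen.dd_all',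
    fun h => H87.Groen.D_outer (h H87.Groen.D H87.Groen.D_der)⟩

end Pool.Agent.Results.MP_ae31bd_an.Neg
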